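import Pool.Agent.W586.CS.Stm

/-!
Project CS, task LEV: the lower bound on the top level.
-/

set_option autoImplicit false

namespace Pool.Agent.W308.CS

open Pool.Agent.W586.CS

theorem main : S_IP → S_SYM → S_SQ → S_FIL2 → S_LEV := by
  intro hIP hSYM hSQ hFIL d ι _ g m f hf hort
  obtain ⟨hsym, hadd, hsmul, -⟩ := hIP d ι g
  obtain ⟨-, -, -, h4⟩ := hFIL d ι m
  have h5 := h4 f hf
  have h6 := hort _ h5
  have e1 : ip g (B0 d ι f) (B0 d ι f) = ip g ((2 : ℝ) • MM f) f := by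
    rw [hSYM d ι g f (B0 d ι f), hSQ d ι f, hsym]
  have e2 : MM f = (MM f - ((m : ℝ) + 1) • f) + ((m : ℝ) + 1) • f := by
    rw [sub_add_cancel]
  have e3 : ip g (MM f) f = ((m : ℝ) + 1) * ip g f f := by
    rw [e2, hadd, h6, hsmul, zero_add]
  rw [e1, hsmul, e3]
  apply le_of_eq
  ring

end Pool.Agent.W308.CS
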